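import Pool.Agent.helper93.VQ.Spec4c

/-!
# Project VQ (MP_07c750_an), block 4c, row RDR: finite differences of a curve in the cone
-/

set_option autoImplicit false

open scoped MatrixGroups ContDiff Topology UpperHalfPlane ComplexConjugate ENNReal
open UpperHalfPlane MeasureTheory Filter Set

namespace Pool.Agent.VQ

open Pool.Agent.RS
open Pool.Agent.VQE (nm)

/-- comparison of a function with a monotone function -/
theorem RDR_mv (f f' c ℓ : ℝ → ℝ) (hf : ∀ t, HasDerivAt f (f' t) t) (hl : ∀ t, HasDerivAt ℓ (c t) t) (a b : ℝ)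
    (K : ℝ) (h : ∀ t ∈ Icc a b, |f' t| ≤ K * c t) : ∀ t ∈ Icc a b, |f t - f a| ≤ K * (ℓ t - ℓ a) := by
  intro t ht
  have h1 : MonotoneOn (fun s => K * ℓ s - f s) (Icc a b) := by
    refine monotoneOn_of_deriv_nonneg (convex_Icc a b) ?_ ?_ ?_
    · exact fun s _ => (((hl s).const_mul K).sub (hf s)).continuousAt.continuousWithinAt
    · exact fun s _ => (((hl s).const_mul K).sub (hf s)).differentiableAt.differentiableWithinAt
    · intro s hs
      have hd : HasDerivAt (fun s => K * ℓ s - f s) (K * c s - f' s) s := ((hl s).const_mul K).sub (hf s)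
      rw [hd.deriv]
      have := h s (interior_subset hs)
      have := abs_le.1 this
      linarith [this.2]
  have h2 : MonotoneOn (fun s => K * ℓ s + f s) (Icc a b) := by
    refine monotoneOn_of_deriv_nonneg (convex_Icc a b) ?_ ?_ ?_
    · exact fun s _ => (((hl s).const_mul K).add (hf s)).continuousAt.continuousWithinAt
    · exact fun s _ => (((hl s).const_mul K).add (hf s)).differentiableAt.differentiableWithinAt
    · intro s hs
      have hd : HasDerivAt (fun s => K * ℓ s + f s) (K * c s + f' s) s := ((hl s).const_mul K).add (hf s)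
      rw [hd.deriv]
      have := h s (interior_subset hs)
      have := abs_le.1 this
      linarith [this.1]
  have ha : a ∈ Icc a b := ⟨le_rfl, ht.1.trans ht.2⟩
  have h3 := h1 ha ht ht.1
  have h4 := h2 ha ht ht.1
  simp only at h3 h4
  rw [abs_le]
  constructor <;> linarith

/-- the pure estimate -/
theorem RDR_core (p q r s x b c ℓ : ℝ → ℝ) (hp : ∀ t, HasDerivAt p (p t * (x t / 2) + q t * c t) t)
    (hq : ∀ t, HasDerivAt q (p t * b t + q t * -(x t / 2)) t) (hr : ∀ t, HasDerivAt r (r t * (x t / 2) + s t * c t) t)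
    (hs : ∀ t, HasDerivAt s (r t * b t + s t * -(x t / 2)) t) (hc : ∀ t, 0 < c t) (hl : ∀ t, HasDerivAt ℓ (c t) t)
    (hcone : ∀ t, x t ^ 2 + b t ^ 2 ≤ (2 / 100) ^ 2 * c t ^ 2) (v v' : ℝ) (hv : v ≤ v') (hL : ℓ v' - ℓ v ≤ 1 / 20)
    (hp0 : p v = 1) (hq0 : q v = 0) (hr0 : r v = 0) (hs0 : s v = 1) :
    |p v' - 1| ≤ 12 / 1000 * (ℓ v' - ℓ v) ∧ |q v'| ≤ 22 / 1000 * (ℓ v' - ℓ v) ∧ |r v' - (ℓ v' - ℓ v)| ≤ 2 / 1000 * (ℓ v' - ℓ v) ∧
      |s v' - 1| ≤ 12 / 1000 * (ℓ v' - ℓ v) := by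
  have hmono : Monotone ℓ := monotone_of_deriv_nonneg (fun t => (hl t).differentiableAt) (fun t => by rw [(hl t).deriv]; exact (hc t).le)
  have hx : ∀ t, |x t| ≤ 1 / 50 * c t := by
    intro t
    refine abs_le_of_sq_le_sq ?_ ?_
    · nlinarith [hcone t, sq_nonneg (b t)]
    · have := hc t
      linarith
  have hb : ∀ t, |b t| ≤ 1 / 50 * c t := by
    intro t
    refine abs_le_of_sq_le_sq ?_ ?_
    · nlinarith [hcone t, sq_nonneg (x t)]
    · have := hc t
      linarith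
  -- the maximum of the norm
  have hvI : v ∈ Icc v v' := ⟨le_rfl, hv⟩
  have hv'I : v' ∈ Icc v v' := ⟨hv, le_rfl⟩
  have hcont : Continuous (fun t => max (max |p t - 1| |q t|) (max |r t| |s t - 1|)) := by
    have c1 : Continuous p := continuous_iff_continuousAt.2 fun t => (hp t).continuousAt
    have c2 : Continuous q := continuous_iff_continuousAt.2 fun t => (hq t).continuousAt
    have c3 : Continuous r := continuous_iff_continuousAt.2 fun t => (hr t).continuousAt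
    have c4 : Continuous s := continuous_iff_continuousAt.2 fun t => (hs t).continuousAt
    fun_prop
  obtain ⟨t0, ht0, hmax⟩ := isCompact_Icc.exists_isMaxOn ⟨v, hvI⟩ hcont.continuousOn
  set M := max (max |p t0 - 1| |q t0|) (max |r t0| |s t0 - 1|) with hM
  have hM' : ∀ t ∈ Icc v v', |p t - 1| ≤ M ∧ |q t| ≤ M ∧ |r t| ≤ M ∧ |s t - 1| ≤ M := by
    intro t ht
    have h1 : max (max |p t - 1| |q t|) (max |r t| |s t - 1|) ≤ M := hmax ht
    have h2 := (max_le_iff.1 h1).1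
    have h3 := (max_le_iff.1 h1).2
    exact ⟨(max_le_iff.1 h2).1, (max_le_iff.1 h2).2, (max_le_iff.1 h3).1, (max_le_iff.1 h3).2⟩
  have hM0 : 0 ≤ M := (abs_nonneg _).trans (hM' v hvI).1
  have hp' : ∀ t ∈ Icc v v', |p t| ≤ 1 + M := by
    intro t ht
    have h1 := abs_le.1 (hM' t ht).1
    rw [abs_le]
    constructor <;> linarith [h1.1, h1.2]
  have hs' : ∀ t ∈ Icc v v', |s t| ≤ 1 + M := by
    intro t ht
    have h1 := abs_le.1 (hM' t ht).2.2.2
    rw [abs_le]
    constructor <;> linarith [h1.1, h1.2]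
  have hmulx : ∀ (u A t : ℝ), |u| ≤ A → |u * (x t / 2)| ≤ A / 100 * c t := by
    intro u A t hu
    rw [abs_mul, abs_div, abs_two]
    have h1 := hx t
    have h2 : 0 ≤ A := (abs_nonneg _).trans hu
    have h3 : |u| * (|x t| / 2) ≤ A * ((1 / 50 * c t) / 2) := mul_le_mul hu (by linarith) (by positivity) h2
    linarith
  have hmulb : ∀ (u A t : ℝ), |u| ≤ A → |u * b t| ≤ A / 50 * c t := by
    intro u A t hu
    rw [abs_mul]
    have h1 := hb t
    have h2 : 0 ≤ A := (abs_nonneg _).trans hu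
    have h3 : |u| * |b t| ≤ A * (1 / 50 * c t) := mul_le_mul hu h1 (abs_nonneg _) h2
    linarith
  have hmulc : ∀ (u A t : ℝ), |u| ≤ A → |u * c t| ≤ A * c t := by
    intro u A t hu
    rw [abs_mul, abs_of_pos (hc t)]
    exact mul_le_mul_of_nonneg_right hu (hc t).le
  have hnegx : ∀ (u A t : ℝ), |u| ≤ A → |u * -(x t / 2)| ≤ A / 100 * c t := by
    intro u A t hu
    rw [mul_neg, abs_neg]
    exact hmulx u A t hu
  -- first bounds
  have d1 : ∀ t ∈ Icc v v', |p t * (x t / 2) + q t * c t| ≤ 51 / 50 * (1 + M) * c t := by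
    intro t ht
    have h1 := hmulx (p t) _ t (hp' t ht)
    have h2 := hmulc (q t) _ t (hM' t ht).2.1
    have h3 := abs_add_le (p t * (x t / 2)) (q t * c t)
    nlinarith [hc t, mul_nonneg hM0 (hc t).le]
  have d2 : ∀ t ∈ Icc v v', |p t * b t + q t * -(x t / 2)| ≤ 51 / 50 * (1 + M) * c t := by
    intro t ht
    have h1 := hmulb (p t) _ t (hp' t ht)
    have h2 := hnegx (q t) _ t (hM' t ht).2.1
    have h3 := abs_add_le (p t * b t) (q t * -(x t / 2))
    nlinarith [hc t, mul_nonneg hM0 (hc t).le]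
  have d3 : ∀ t ∈ Icc v v', |r t * (x t / 2) + s t * c t| ≤ 51 / 50 * (1 + M) * c t := by
    intro t ht
    have h1 := hmulx (r t) _ t (hM' t ht).2.2.1
    have h2 := hmulc (s t) _ t (hs' t ht)
    have h3 := abs_add_le (r t * (x t / 2)) (s t * c t)
    nlinarith [hc t, mul_nonneg hM0 (hc t).le]
  have d4 : ∀ t ∈ Icc v v', |r t * b t + s t * -(x t / 2)| ≤ 51 / 50 * (1 + M) * c t := by
    intro t ht
    have h1 := hmulb (r t) _ t (hM' t ht).2.2.1
    have h2 := hnegx (s t) _ t (hs' t ht)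
    have h3 := abs_add_le (r t * b t) (s t * -(x t / 2))
    nlinarith [hc t, mul_nonneg hM0 (hc t).le]
  have e1 := RDR_mv p _ c ℓ hp hl v v' _ d1 t0 ht0
  have e2 := RDR_mv q _ c ℓ hq hl v v' _ d2 t0 ht0
  have e3 := RDR_mv r _ c ℓ hr hl v v' _ d3 t0 ht0
  have e4 := RDR_mv s _ c ℓ hs hl v v' _ d4 t0 ht0
  rw [hp0] at e1
  rw [hq0, sub_zero] at e2
  rw [hr0, sub_zero] at e3
  rw [hs0] at e4
  have hl0 : ℓ t0 - ℓ v ≤ 1 / 20 := by
    have := hmono ht0.2
    linarith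
  have hl1 : 0 ≤ ℓ t0 - ℓ v := by
    have := hmono ht0.1
    linarith
  have hMle : M ≤ 51 / 50 * (1 + M) * (ℓ t0 - ℓ v) := max_le (max_le e1 e2) (max_le e3 e4)
  have hM1 : M ≤ 54 / 1000 := by
    have h1 : 51 / 50 * (1 + M) * (ℓ t0 - ℓ v) ≤ 51 / 50 * (1 + M) * (1 / 20) := mul_le_mul_of_nonneg_left hl0 (by positivity)
    linarith
  have hLt : ∀ t ∈ Icc v v', 0 ≤ ℓ t - ℓ v ∧ ℓ t - ℓ v ≤ 1 / 20 := by
    intro t ht
    have h1 := hmono ht.1
    have h2 := hmono ht.2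
    constructor <;> linarith
  -- second bounds
  have f2 : ∀ t ∈ Icc v v', |p t * b t + q t * -(x t / 2)| ≤ 22 / 1000 * c t := by
    intro t ht
    have h1 := hmulb (p t) _ t (hp' t ht)
    have h2 := hnegx (q t) _ t (hM' t ht).2.1
    have h3 := abs_add_le (p t * b t) (q t * -(x t / 2))
    have h4 : M * c t ≤ 54 / 1000 * c t := mul_le_mul_of_nonneg_right hM1 (hc t).le
    nlinarith [hc t]
  have g2 := RDR_mv q _ c ℓ hq hl v v' _ f2
  have f1 : ∀ t ∈ Icc v v', |p t * (x t / 2) + q t * c t| ≤ 12 / 1000 * c t := by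
    intro t ht
    have h1 := hmulx (p t) _ t (hp' t ht)
    have h5 : |q t| ≤ 11 / 10000 := by
      have h6 := g2 t ht
      rw [hq0, sub_zero] at h6
      have h7 := (hLt t ht).2
      linarith
    have h2 := hmulc (q t) _ t h5
    have h3 := abs_add_le (p t * (x t / 2)) (q t * c t)
    have h4 : M * c t ≤ 54 / 1000 * c t := mul_le_mul_of_nonneg_right hM1 (hc t).le
    nlinarith [hc t]
  have g1 := RDR_mv p _ c ℓ hp hl v v' _ f1
  have f4 : ∀ t ∈ Icc v v', |r t * b t + s t * -(x t / 2)| ≤ 12 / 1000 * c t := by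
    intro t ht
    have h1 := hmulb (r t) _ t (hM' t ht).2.2.1
    have h2 := hnegx (s t) _ t (hs' t ht)
    have h3 := abs_add_le (r t * b t) (s t * -(x t / 2))
    have h4 : M * c t ≤ 54 / 1000 * c t := mul_le_mul_of_nonneg_right hM1 (hc t).le
    nlinarith [hc t]
  have g4 := RDR_mv s _ c ℓ hs hl v v' _ f4
  have hr1 : ∀ t, HasDerivAt (fun u => r u - ℓ u) ((r t * (x t / 2) + s t * c t) - c t) t := fun t => (hr t).sub (hl t)
  have f3 : ∀ t ∈ Icc v v', |(r t * (x t / 2) + s t * c t) - c t| ≤ 2 / 1000 * c t := by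
    intro t ht
    have h1 := hmulx (r t) _ t (hM' t ht).2.2.1
    have h5 : |s t - 1| ≤ 6 / 10000 := by
      have h6 := g4 t ht
      rw [hs0] at h6
      have h7 := (hLt t ht).2
      linarith
    have h2 := hmulc (s t - 1) _ t h5
    have h3 := abs_add_le (r t * (x t / 2)) ((s t - 1) * c t)
    have h4 : M * c t ≤ 54 / 1000 * c t := mul_le_mul_of_nonneg_right hM1 (hc t).le
    have h8 : (r t * (x t / 2) + s t * c t) - c t = r t * (x t / 2) + (s t - 1) * c t := by ring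
    rw [h8]
    nlinarith [hc t]
  have g3 := RDR_mv (fun u => r u - ℓ u) _ c ℓ hr1 hl v v' _ f3
  have k1 := g1 v' hv'I
  have k2 := g2 v' hv'I
  have k3 := g3 v' hv'I
  have k4 := g4 v' hv'I
  rw [hp0] at k1
  rw [hq0, sub_zero] at k2
  rw [hs0] at k4
  simp only [hr0] at k3
  refine ⟨k1, k2, ?_, k4⟩
  have h9 : r v' - ℓ v' - (0 - ℓ v) = r v' - (ℓ v' - ℓ v) := by ring
  rw [h9] at k3
  exact k3

theorem RDR_mul (D E : SL(2, ℝ)) (i j : Fin 2) : (D * E).1 i j = D.1 i 0 * E.1 0 j + D.1 i 1 * E.1 1 j := by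
  have h : (D * E).1 = D.1 * E.1 := rfl
  rw [h, Matrix.mul_apply, Fin.sum_univ_two]

theorem RDR_der (A : SL(2, ℝ)) (γ : ℝ → SL(2, ℝ)) (x b c : ℝ → ℝ) (h : Cv γ x b c) (t : ℝ) (i : Fin 2) :
    HasDerivAt (fun s => (A * γ s).1 i 0) ((A * γ t).1 i 0 * (x t / 2) + (A * γ t).1 i 1 * c t) t ∧
    HasDerivAt (fun s => (A * γ s).1 i 1) ((A * γ t).1 i 0 * b t + (A * γ t).1 i 1 * -(x t / 2)) t := by
  have h0 := h.der t 0 0
  have h1 := h.der t 1 0
  have h2 := h.der t 0 1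
  have h3 := h.der t 1 1
  simp only [Matrix.mul_apply, Fin.sum_univ_two, Matrix.of_apply, Matrix.cons_val', Matrix.cons_val_zero, Matrix.cons_val_one,
    Matrix.cons_val_fin_one] at h0 h1 h2 h3
  constructor
  · have e : (fun s => (A * γ s).1 i 0) = fun s => A.1 i 0 * (γ s).1 0 0 + A.1 i 1 * (γ s).1 1 0 := by
      funext s
      rw [RDR_mul]
    rw [e]
    refine ((h0.const_mul (A.1 i 0)).add (h1.const_mul (A.1 i 1))).congr_deriv ?_
    rw [RDR_mul, RDR_mul]
    ring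
  · have e : (fun s => (A * γ s).1 i 1) = fun s => A.1 i 0 * (γ s).1 0 1 + A.1 i 1 * (γ s).1 1 1 := by
      funext s
      rw [RDR_mul]
    rw [e]
    refine ((h2.const_mul (A.1 i 0)).add (h3.const_mul (A.1 i 1))).congr_deriv ?_
    rw [RDR_mul, RDR_mul]
    ring

theorem RDR_proof : RDR_stmt := by
  intro γ x b c ℓ h v v' hv hL
  have h1 : (γ v)⁻¹ * γ v = 1 := inv_mul_cancel _
  have hp0 : ((γ v)⁻¹ * γ v).1 0 0 = 1 := by rw [h1]; simp
  have hq0 : ((γ v)⁻¹ * γ v).1 0 1 = 0 := by rw [h1]; simp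
  have hr0 : ((γ v)⁻¹ * γ v).1 1 0 = 0 := by rw [h1]; simp
  have hs0 : ((γ v)⁻¹ * γ v).1 1 1 = 1 := by rw [h1]; simp
  obtain ⟨k1, k2, k3, k4⟩ := RDR_core (fun s => ((γ v)⁻¹ * γ s).1 0 0) (fun s => ((γ v)⁻¹ * γ s).1 0 1) (fun s => ((γ v)⁻¹ * γ s).1 1 0)
    (fun s => ((γ v)⁻¹ * γ s).1 1 1) x b c ℓ (fun t => (RDR_der (γ v)⁻¹ γ x b c h.toCv t 0).1)
    (fun t => (RDR_der (γ v)⁻¹ γ x b c h.toCv t 0).2) (fun t => (RDR_der (γ v)⁻¹ γ x b c h.toCv t 1).1)
    (fun t => (RDR_der (γ v)⁻¹ γ x b c h.toCv t 1).2) h.pos h.dl h.cone v v' hv hL hp0 hq0 hr0 hs0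
  have hmono : Monotone ℓ := monotone_of_deriv_nonneg (fun t => (h.dl t).differentiableAt) (fun t => by rw [(h.dl t).deriv]; exact (h.pos t).le)
  have hL0 : 0 ≤ ℓ v' - ℓ v := by
    have := hmono hv
    linarith
  refine ⟨?_, by linarith, ?_⟩
  · unfold nm
    refine max_le (max_le (by linarith) (by linarith)) (max_le ?_ (by linarith))
    obtain ⟨a1, a2⟩ := abs_le.1 k3
    rw [abs_le]
    constructor <;> linarith
  · have h5 : |((γ v)⁻¹ * γ v').1 0 0 - ((γ v)⁻¹ * γ v').1 1 1| ≤ 24 / 1000 * (ℓ v' - ℓ v) := by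
      obtain ⟨a1, a2⟩ := abs_le.1 k1
      obtain ⟨a3, a4⟩ := abs_le.1 k4
      rw [abs_le]
      constructor <;> linarith
    linarith

end Pool.Agent.VQ
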