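import Pool.Agent.helper93.VQ.Spec4c

/-!
# Project VQ (MP_07c750_an), block 4c, row RPI: pieces
-/

set_option autoImplicit false

open scoped MatrixGroups ContDiff Topology UpperHalfPlane ComplexConjugate ENNReal
open UpperHalfPlane MeasureTheory Filter Set

namespace Pool.Agent.VQ

open Pool.Agent.RS
open Pool.Agent.VQE (nm)

theorem RPI_core (ℓ : ℝ → ℝ) (v v' l0 : ℝ) (hc : Continuous ℓ) (hm : StrictMono ℓ) (hl0 : 0 < l0) (hvv : v < v')
    (hl : l0 ≤ ℓ v' - ℓ v) : ∃ (k : ℕ) (x : ℕ → ℝ), 1 ≤ k ∧ x 0 = v ∧ x k = v' ∧ (∀ i < k, x i < x (i + 1)) ∧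
  (∀ i < k, l0 ≤ ℓ (x (i + 1)) - ℓ (x i) ∧ ℓ (x (i + 1)) - ℓ (x i) ≤ 2 * l0) ∧ (∑ i ∈ Finset.range k, (x (i + 1) - x i) = v' - v) ∧
  (∀ f : ℝ → ENNReal, ∫⁻ u in Icc v v', f u = ∑ i ∈ Finset.range k, ∫⁻ u in Icc (x i) (x (i + 1)), f u) ∧
  ∀ (J : Finset ℕ) (S : Set ℝ), J ⊆ Finset.range k → (∀ i ∈ J, Icc (x i) (x (i + 1)) ⊆ S) → ENNReal.ofReal (∑ i ∈ J, (x (i + 1) - x i)) ≤ volume (S ∩ Icc v v') := by
  set a := ℓ v' - ℓ v with ha
  have ha0 : 0 < a := lt_of_lt_of_le hl0 hl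
  set k := ⌊a / l0⌋₊ with hk
  have h1 : 1 ≤ a / l0 := (one_le_div hl0).2 hl
  have hk1 : 1 ≤ k := Nat.le_floor (by exact_mod_cast h1)
  have hkr : (1 : ℝ) ≤ (k : ℝ) := by exact_mod_cast hk1
  have hk0 : (0 : ℝ) < (k : ℝ) := by linarith
  have hk2 : (k : ℝ) ≤ a / l0 := Nat.floor_le (by linarith)
  have hk3 : a / l0 < (k : ℝ) + 1 := Nat.lt_floor_add_one _
  have hs1 : l0 ≤ a / k := by
    rw [le_div_iff₀ hk0]
    rw [le_div_iff₀ hl0] at hk2
    linarith
  have hs2 : a / k ≤ 2 * l0 := by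
    rw [div_le_iff₀ hk0]
    rw [div_lt_iff₀ hl0] at hk3
    nlinarith
  have hiv : ∀ i : ℕ, ∃ t : ℝ, i ≤ k → ℓ t = ℓ v + (i : ℝ) / k * a := by
    intro i
    by_cases hi : i ≤ k
    · have hir : (i : ℝ) ≤ (k : ℝ) := by exact_mod_cast hi
      have h2 : (i : ℝ) / k ≤ 1 := (div_le_one hk0).2 hir
      have h3 : 0 ≤ (i : ℝ) / k := by positivity
      have h4 : ℓ v + (i : ℝ) / k * a ∈ Icc (ℓ v) (ℓ v') := by
        constructor
        · have : 0 ≤ (i : ℝ) / k * a := mul_nonneg h3 ha0.le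
          linarith
        · have : (i : ℝ) / k * a ≤ 1 * a := mul_le_mul_of_nonneg_right h2 ha0.le
          linarith
      obtain ⟨t, -, ht⟩ := intermediate_value_Icc hvv.le hc.continuousOn h4
      exact ⟨t, fun _ => ht⟩
    · exact ⟨0, fun h => absurd h hi⟩
  choose x hx using hiv
  have hx0 : x 0 = v := by
    apply hm.injective
    rw [hx 0 (Nat.zero_le _)]
    simp
  have hxk : x k = v' := by
    apply hm.injective
    rw [hx k le_rfl, div_self hk0.ne', ha]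
    ring
  have hdiff : ∀ i < k, ℓ (x (i + 1)) - ℓ (x i) = a / k := by
    intro i hi
    rw [hx (i + 1) hi, hx i hi.le]
    push_cast
    field_simp
    ring
  have hlt : ∀ i < k, x i < x (i + 1) := by
    intro i hi
    rw [← hm.lt_iff_lt]
    have h5 := hdiff i hi
    have h6 : 0 < a / k := by positivity
    linarith
  have hint : ∀ f : ℝ → ENNReal, ∀ n : ℕ, n ≤ k → v ≤ x n ∧
      ∫⁻ u in Ioc v (x n), f u = ∑ i ∈ Finset.range n, ∫⁻ u in Icc (x i) (x (i + 1)), f u := by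
    intro f n
    induction n with
    | zero =>
      intro _
      refine ⟨hx0.ge, ?_⟩
      rw [hx0]
      simp
    | succ n ih =>
      intro hn
      obtain ⟨h7, h8⟩ := ih (by omega)
      have h9 := hlt n (by omega)
      refine ⟨h7.trans h9.le, ?_⟩
      have h10 : Ioc v (x (n + 1)) = Ioc v (x n) ∪ Ioc (x n) (x (n + 1)) := (Ioc_union_Ioc_eq_Ioc h7 h9.le).symm
      rw [h10, lintegral_union measurableSet_Ioc (Ioc_disjoint_Ioc_of_le le_rfl), h8, Finset.sum_range_succ]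
      congr 1
      exact setLIntegral_congr Ioc_ae_eq_Icc
  have hint' : ∀ f : ℝ → ENNReal, ∫⁻ u in Icc v v', f u = ∑ i ∈ Finset.range k, ∫⁻ u in Icc (x i) (x (i + 1)), f u := by
    intro f
    rw [← (hint f k le_rfl).2, hxk]
    exact (setLIntegral_congr Ioc_ae_eq_Icc).symm
  refine ⟨k, x, hk1, hx0, hxk, hlt, ?_, ?_, hint', ?_⟩
  · intro i hi
    rw [hdiff i hi]
    exact ⟨hs1, hs2⟩
  · rw [Finset.sum_range_sub, hx0, hxk]
  · intro J S hJ hS
    set T : Set ℝ := ⋃ i ∈ J, Icc (x i) (x (i + 1)) with hT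
    have hTm : MeasurableSet T := Finset.measurableSet_biUnion _ fun i _ => measurableSet_Icc
    have hTS : T ⊆ S := iUnion₂_subset hS
    calc ENNReal.ofReal (∑ i ∈ J, (x (i + 1) - x i)) = ∑ i ∈ J, ENNReal.ofReal (x (i + 1) - x i) := by
          rw [ENNReal.ofReal_sum_of_nonneg]
          intro i hi
          have := hlt i (Finset.mem_range.1 (hJ hi))
          linarith
      _ = ∑ i ∈ J, ∫⁻ u in Icc (x i) (x (i + 1)), T.indicator 1 u := by
          refine Finset.sum_congr rfl fun i hi => ?_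
          rw [lintegral_indicator_one hTm, Measure.restrict_apply hTm]
          have h11 : T ∩ Icc (x i) (x (i + 1)) = Icc (x i) (x (i + 1)) :=
            inter_eq_self_of_subset_right (subset_biUnion_of_mem (u := fun i => Icc (x i) (x (i + 1))) (Finset.mem_coe.2 hi))
          rw [h11, Real.volume_Icc]
      _ ≤ ∑ i ∈ Finset.range k, ∫⁻ u in Icc (x i) (x (i + 1)), T.indicator 1 u :=
          Finset.sum_le_sum_of_subset hJ
      _ = ∫⁻ u in Icc v v', T.indicator 1 u := (hint' _).symm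
      _ = volume (T ∩ Icc v v') := by
          rw [lintegral_indicator_one hTm, Measure.restrict_apply hTm]
      _ ≤ volume (S ∩ Icc v v') := measure_mono (inter_subset_inter_left _ hTS)

theorem RPI_proof : RPI_stmt := by
  intro ℓ v v' l0 hc hm h0 hv hl
  exact RPI_core ℓ v v' l0 hc hm h0 hv hl

end Pool.Agent.VQ
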