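import Pool.Agent.helper93.VQ.Spec4c

/-!
# Project VQ (MP_07c750_an), block 4c, row RTW: two orbits
-/

set_option autoImplicit false

open scoped MatrixGroups ContDiff Topology UpperHalfPlane ComplexConjugate ENNReal
open UpperHalfPlane MeasureTheory Filter Set

namespace Pool.Agent.VQ

open Pool.Agent.RS
open Pool.Agent.VQE (nm)

/-- algebra at one time -/
theorem RTW_alg (d L r1 k1 R1 K1 r2 k2 R2 K2 ξ1 β1 ξ2 β2 S : ℝ) (hd0 : 0 < d) (hd1 : d ≤ 1 / 10000) (hL : 0 ≤ L)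
    (hr1 : |r1 - 1| ≤ d) (hr2 : |r2 - 1| ≤ d) (hk1 : |k1| ≤ d) (hk2 : |k2| ≤ d)
    (hK1 : |K1| ≤ 11 / 10 * d) (hK2 : |K2| ≤ 11 / 10 * d)
    (hr : |r1 - r2| ≤ 2 * d * L) (hk : |k1 - k2| ≤ 2 * d * L)
    (hR : |R1 - R2| ≤ d * (|ξ1 - ξ2| + |β1 - β2|) + 22 / 10 * d * L)
    (hK : |K1 - K2| ≤ d * (|ξ1 - ξ2| + |β1 - β2|) + 22 / 10 * d * L)
    (h1 : |ξ1| ≤ 1 / 25) (h2 : |β1| ≤ 1 / 25) (h3 : |ξ2| ≤ 1 / 25) (h4 : |β2| ≤ 1 / 25)
    (hS : 0 ≤ S) (hSS : S ^ 2 = (ξ1 - ξ2) ^ 2 + (β1 - β2) ^ 2) :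
    |(r1 + k1 * ξ1 / 2 - K1 / 2) - (r2 + k2 * ξ2 / 2 - K2 / 2)| ≤ 4 * d * L + 2 * d * S ∧
    2 * (ξ1 - ξ2) * ((-(k1 * (β1 + 1)) + R1 - (r1 + k1 * ξ1 / 2 - K1 / 2) * ξ1) - (-(k2 * (β2 + 1)) + R2 - (r2 + k2 * ξ2 / 2 - K2 / 2) * ξ2)) +
      2 * (β1 - β2) * ((-(r1 * β1) + k1 * ξ1 / 2 + K1 / 2 - (r1 + k1 * ξ1 / 2 - K1 / 2) * β1) -
        (-(r2 * β2) + k2 * ξ2 / 2 + K2 / 2 - (r2 + k2 * ξ2 / 2 - K2 / 2) * β2)) ≤
      -(9 / 5) * S ^ 2 + 3000 * (d * L) ^ 2 := by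
  set a := ξ1 - ξ2 with ha
  set e := β1 - β2 with he
  have haS : |a| ≤ S := abs_le_of_sq_le_sq (by linarith [sq_nonneg e]) hS
  have heS : |e| ≤ S := abs_le_of_sq_le_sq (by linarith [sq_nonneg a]) hS
  have hdL : 0 ≤ d * L := mul_nonneg hd0.le hL
  have hdS : 0 ≤ d * S := mul_nonneg hd0.le hS
  have hda : d * |a| ≤ d * S := mul_le_mul_of_nonneg_left haS hd0.le
  have hde : d * |e| ≤ d * S := mul_le_mul_of_nonneg_left heS hd0.le
  have hR' : |R1 - R2| ≤ 2 * (d * S) + 22 / 10 * (d * L) := by linarith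
  have hK' : |K1 - K2| ≤ 2 * (d * S) + 22 / 10 * (d * L) := by linarith
  -- products
  have hmul : ∀ u w A B : ℝ, |u| ≤ A → |w| ≤ B → |u * w| ≤ A * B := by
    intro u w A B hu hw
    rw [abs_mul]
    exact mul_le_mul hu hw (abs_nonneg _) ((abs_nonneg _).trans hu)
  have m1 : |k1 * a| ≤ d * S := hmul _ _ _ _ hk1 haS
  have m2 : |(k1 - k2) * ξ2| ≤ 2 * d * L * (1 / 25) := hmul _ _ _ _ hk h3
  have hlam : |(r1 + k1 * ξ1 / 2 - K1 / 2) - (r2 + k2 * ξ2 / 2 - K2 / 2)| ≤ 7 / 2 * (d * L) + 3 / 2 * (d * S) := by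
    have e1 : (r1 + k1 * ξ1 / 2 - K1 / 2) - (r2 + k2 * ξ2 / 2 - K2 / 2) =
        (r1 - r2) + (k1 * a + (k1 - k2) * ξ2) / 2 - (K1 - K2) / 2 := by
      rw [ha]; ring
    rw [e1]
    obtain ⟨a1, a2⟩ := abs_le.1 hr
    obtain ⟨a3, a4⟩ := abs_le.1 m1
    obtain ⟨a5, a6⟩ := abs_le.1 m2
    obtain ⟨a7, a8⟩ := abs_le.1 hK'
    rw [abs_le]
    constructor <;> linarith
  set l1 := r1 + k1 * ξ1 / 2 - K1 / 2 with hl1
  set l2 := r2 + k2 * ξ2 / 2 - K2 / 2 with hl2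
  refine ⟨by linarith, ?_⟩
  have hlow1 : 1 - 2 * d ≤ l1 := by
    have m3 : |k1 * ξ1| ≤ d * (1 / 25) := hmul _ _ _ _ hk1 h1
    obtain ⟨a1, a2⟩ := abs_le.1 hr1
    obtain ⟨a3, a4⟩ := abs_le.1 m3
    obtain ⟨a5, a6⟩ := abs_le.1 hK1
    rw [hl1]
    linarith
  have hlow2 : 1 - 2 * d ≤ l2 := by
    have m3 : |k2 * ξ2| ≤ d * (1 / 25) := hmul _ _ _ _ hk2 h3
    obtain ⟨a1, a2⟩ := abs_le.1 hr2
    obtain ⟨a3, a4⟩ := abs_le.1 m3
    obtain ⟨a5, a6⟩ := abs_le.1 hK2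
    rw [hl2]
    linarith
  have hr1pos : 0 ≤ r1 := by
    obtain ⟨a1, a2⟩ := abs_le.1 hr1
    linarith
  set A1 := -(k1 * e) - (k1 - k2) * (β2 + 1) + (R1 - R2) - (l1 - l2) * ((ξ1 + ξ2) / 2) with hA1
  set B1 := -((r1 - r2) * β2) + (k1 * a + (k1 - k2) * ξ2) / 2 + (K1 - K2) / 2 - (l1 - l2) * ((β1 + β2) / 2) with hB1
  have hmx : |(ξ1 + ξ2) / 2| ≤ 1 / 25 := by
    obtain ⟨a1, a2⟩ := abs_le.1 h1
    obtain ⟨a3, a4⟩ := abs_le.1 h3
    rw [abs_le]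
    constructor <;> linarith
  have hmb : |(β1 + β2) / 2| ≤ 1 / 25 := by
    obtain ⟨a1, a2⟩ := abs_le.1 h2
    obtain ⟨a3, a4⟩ := abs_le.1 h4
    rw [abs_le]
    constructor <;> linarith
  have hb2 : |β2 + 1| ≤ 26 / 25 := by
    obtain ⟨a3, a4⟩ := abs_le.1 h4
    rw [abs_le]
    constructor <;> linarith
  have n1 : |k1 * e| ≤ d * S := hmul _ _ _ _ hk1 heS
  have n2 : |(k1 - k2) * (β2 + 1)| ≤ 2 * d * L * (26 / 25) := hmul _ _ _ _ hk hb2
  have n3 : |(l1 - l2) * ((ξ1 + ξ2) / 2)| ≤ (7 / 2 * (d * L) + 3 / 2 * (d * S)) * (1 / 25) := hmul _ _ _ _ hlam hmx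
  have n4 : |(l1 - l2) * ((β1 + β2) / 2)| ≤ (7 / 2 * (d * L) + 3 / 2 * (d * S)) * (1 / 25) := hmul _ _ _ _ hlam hmb
  have n5 : |(r1 - r2) * β2| ≤ 2 * d * L * (1 / 25) := hmul _ _ _ _ hr h4
  have hA : |A1| ≤ 4 * (d * S) + 5 * (d * L) := by
    obtain ⟨a1, a2⟩ := abs_le.1 n1
    obtain ⟨a3, a4⟩ := abs_le.1 n2
    obtain ⟨a5, a6⟩ := abs_le.1 n3
    obtain ⟨a7, a8⟩ := abs_le.1 hR'
    rw [hA1, abs_le]
    constructor <;> linarith
  have hB : |B1| ≤ 3 * (d * S) + 3 * (d * L) := by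
    obtain ⟨a1, a2⟩ := abs_le.1 n5
    obtain ⟨a3, a4⟩ := abs_le.1 m1
    obtain ⟨a5, a6⟩ := abs_le.1 m2
    obtain ⟨a7, a8⟩ := abs_le.1 hK'
    obtain ⟨a9, a10⟩ := abs_le.1 n4
    rw [hB1, abs_le]
    constructor <;> linarith
  have hid : 2 * a * ((-(k1 * (β1 + 1)) + R1 - l1 * ξ1) - (-(k2 * (β2 + 1)) + R2 - l2 * ξ2)) +
      2 * e * ((-(r1 * β1) + k1 * ξ1 / 2 + K1 / 2 - l1 * β1) - (-(r2 * β2) + k2 * ξ2 / 2 + K2 / 2 - l2 * β2)) =
      2 * (a * A1) + 2 * (e * B1) - 2 * r1 * e ^ 2 - (l1 + l2) * S ^ 2 := by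
    rw [hSS, hA1, hB1, ha, he]
    ring
  rw [hid]
  have p1 : |a * A1| ≤ S * (4 * (d * S) + 5 * (d * L)) := hmul _ _ _ _ haS hA
  have p2 : |e * B1| ≤ S * (3 * (d * S) + 3 * (d * L)) := hmul _ _ _ _ heS hB
  have p1' := (abs_le.1 p1).2
  have p2' := (abs_le.1 p2).2
  have p3 : 0 ≤ 2 * r1 * e ^ 2 := by positivity
  have p4 : (1 - 2 * d + (1 - 2 * d)) * S ^ 2 ≤ (l1 + l2) * S ^ 2 := mul_le_mul_of_nonneg_right (by linarith) (sq_nonneg _)
  have p5 : d * S ^ 2 ≤ 1 / 10000 * S ^ 2 := mul_le_mul_of_nonneg_right hd1 (sq_nonneg _)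
  have p6 : 0 ≤ (S / 5 - 40 * (d * L)) ^ 2 := sq_nonneg _
  have p7 := sq_nonneg S
  have p8 := sq_nonneg (d * L)
  linarith

theorem RTW_anti (f f' : ℝ → ℝ) (a b : ℝ) (hab : a ≤ b) (hf : ∀ t ∈ Icc a b, HasDerivAt f (f' t) t)
    (h : ∀ t ∈ Icc a b, f' t ≤ 0) : f b ≤ f a := by
  have h1 : AntitoneOn f (Icc a b) := by
    refine antitoneOn_of_deriv_nonpos (convex_Icc a b) ?_ ?_ ?_
    · exact fun s hs => (hf s hs).continuousAt.continuousWithinAt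
    · exact fun s hs => (hf s (interior_subset hs)).differentiableAt.differentiableWithinAt
    · intro s hs
      rw [(hf s (interior_subset hs)).deriv]
      exact h s (interior_subset hs)
  exact h1 ⟨le_rfl, hab⟩ ⟨hab, le_rfl⟩ hab

theorem RTW_mv (f g f' g' : ℝ → ℝ) (a b : ℝ) (hab : a ≤ b) (hf : ∀ t ∈ Icc a b, HasDerivAt f (f' t) t)
    (hg : ∀ t ∈ Icc a b, HasDerivAt g (g' t) t) (h : ∀ t ∈ Icc a b, |f' t| ≤ g' t) : |f b - f a| ≤ g b - g a := by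
  have h1 := RTW_anti (fun t => f t - g t) (fun t => f' t - g' t) a b hab (fun t ht => (hf t ht).sub (hg t ht))
    (fun t ht => by have := (abs_le.1 (h t ht)).2; linarith)
  have h2 := RTW_anti (fun t => -f t - g t) (fun t => -f' t - g' t) a b hab (fun t ht => (hf t ht).neg.sub (hg t ht))
    (fun t ht => by have := (abs_le.1 (h t ht)).1; linarith)
  rw [abs_le]
  constructor <;> linarith

theorem RTW_ode (X X' : ℝ → ℝ) (T q X0 : ℝ) (hX : ∀ t ∈ Icc 0 T, HasDerivAt X (X' t) t)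
    (h : ∀ t ∈ Icc 0 T, X' t ≤ -(9 / 5) * X t + 3000 * (q * Real.exp (-(99 / 100 * (T - t)))) ^ 2) (h0 : X 0 ≤ X0 ^ 2) :
    ∀ t ∈ Icc 0 T, X t ≤ Real.exp (-(9 / 5 * t)) * X0 ^ 2 + 1000 * (q * Real.exp (-(99 / 100 * (T - t)))) ^ 2 := by
  intro t ht
  have hd : ∀ s : ℝ, HasDerivAt (fun s => q * Real.exp (-(99 / 100 * (T - s)))) (q * Real.exp (-(99 / 100 * (T - s))) * (99 / 100)) s := by
    intro s
    have h1 : HasDerivAt (fun s => -(99 / 100 * (T - s))) (99 / 100) s := by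
      have h0 : HasDerivAt (fun s => -(99 / 100 * (T - s))) (-(99 / 100 * -1)) s :=
        (((hasDerivAt_id s).const_sub T).const_mul (99 / 100)).neg
      exact h0.congr_deriv (by norm_num)
    have h2 := (h1.exp).const_mul q
    refine h2.congr_deriv ?_
    ring
  have hsub : ∀ s ∈ Icc 0 t, s ∈ Icc 0 T := fun s hs => ⟨hs.1, hs.2.trans ht.2⟩
  have hG := RTW_anti (fun s => Real.exp (9 / 5 * s) * (X s - 1000 * (q * Real.exp (-(99 / 100 * (T - s)))) ^ 2))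
    (fun s => Real.exp (9 / 5 * s) * (9 / 5) * (X s - 1000 * (q * Real.exp (-(99 / 100 * (T - s)))) ^ 2) +
      Real.exp (9 / 5 * s) * (X' s - 1000 * (2 * (q * Real.exp (-(99 / 100 * (T - s)))) * (q * Real.exp (-(99 / 100 * (T - s))) * (99 / 100))))) 0 t ht.1
    (fun s hs => by
      have h1 : HasDerivAt (fun s : ℝ => Real.exp (9 / 5 * s)) (Real.exp (9 / 5 * s) * (9 / 5)) s := by
        have := ((hasDerivAt_id s).const_mul (9 / 5)).exp
        simpa using this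
      have h2 : HasDerivAt (fun s => (q * Real.exp (-(99 / 100 * (T - s)))) ^ 2)
          (2 * (q * Real.exp (-(99 / 100 * (T - s)))) * (q * Real.exp (-(99 / 100 * (T - s))) * (99 / 100))) s := by
        have h0 : HasDerivAt (fun s => (q * Real.exp (-(99 / 100 * (T - s)))) ^ 2)
          (((2 : ℕ) : ℝ) * (q * Real.exp (-(99 / 100 * (T - s)))) ^ (2 - 1) * (q * Real.exp (-(99 / 100 * (T - s))) * (99 / 100))) s := (hd s).pow 2
        exact h0.congr_deriv (by norm_num)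
      exact h1.mul ((hX s (hsub s hs)).sub (h2.const_mul 1000)))
    (fun s hs => by
      have h1 := h s (hsub s hs)
      have h2 : 0 < Real.exp (9 / 5 * s) := Real.exp_pos _
      set w := q * Real.exp (-(99 / 100 * (T - s))) with hw
      have h3 : Real.exp (9 / 5 * s) * (9 / 5) * (X s - 1000 * w ^ 2) + Real.exp (9 / 5 * s) * (X' s - 1000 * (2 * w * (w * (99 / 100)))) =
          Real.exp (9 / 5 * s) * ((9 / 5) * (X s - 1000 * w ^ 2) + (X' s - 1980 * w ^ 2)) := by ring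
      rw [h3]
      refine mul_nonpos_of_nonneg_of_nonpos h2.le ?_
      nlinarith [sq_nonneg w])
  have h4 : Real.exp (9 / 5 * (0 : ℝ)) * (X 0 - 1000 * (q * Real.exp (-(99 / 100 * (T - 0)))) ^ 2) ≤ X0 ^ 2 := by
    rw [mul_zero, Real.exp_zero, one_mul]
    have := sq_nonneg (q * Real.exp (-(99 / 100 * (T - 0))))
    linarith
  have h5 := hG.trans h4
  have h6 : Real.exp (-(9 / 5 * t)) * Real.exp (9 / 5 * t) = 1 := by
    rw [← Real.exp_add]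
    simp
  have h7 := mul_le_mul_of_nonneg_left h5 (Real.exp_pos (-(9 / 5 * t))).le
  rw [← mul_assoc, h6, one_mul] at h7
  linarith

theorem RTW_log (f f' S : ℝ → ℝ) (T d Λ X0 : ℝ) (hT : 0 ≤ T) (hd0 : 0 < d) (hd1 : d ≤ 1 / 10000) (hΛ : 0 ≤ Λ) (hX0 : 0 ≤ X0)
    (hf : ∀ t ∈ Icc 0 T, HasDerivAt f (f' t) t)
    (h : ∀ t ∈ Icc 0 T, |f' t| ≤ 4 * d * (Λ * Real.exp (-(99 / 100 * (T - t)))) + 2 * d * S t)
    (hS : ∀ t ∈ Icc 0 T, S t ^ 2 ≤ Real.exp (-(9 / 5 * t)) * X0 ^ 2 + 1000 * (d * Λ * Real.exp (-(99 / 100 * (T - t)))) ^ 2) :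
    |f T - f 0| ≤ 20 * d * (Λ + X0) := by
  have hg : ∀ t ∈ Icc 0 T, HasDerivAt (fun t => 500 / 99 * d * Λ * Real.exp (-(99 / 100 * (T - t))) - 20 / 9 * d * X0 * Real.exp (-(9 / 10 * t)))
      (5 * d * Λ * Real.exp (-(99 / 100 * (T - t))) + 2 * d * X0 * Real.exp (-(9 / 10 * t))) t := by
    intro t _
    have h1 : HasDerivAt (fun s => -(99 / 100 * (T - s))) (99 / 100) t := by
      have h0 : HasDerivAt (fun s => -(99 / 100 * (T - s))) (-(99 / 100 * -1)) t :=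
        (((hasDerivAt_id t).const_sub T).const_mul (99 / 100)).neg
      exact h0.congr_deriv (by norm_num)
    have h2 : HasDerivAt (fun s : ℝ => -(9 / 10 * s)) (-(9 / 10)) t := by
      have h0 : HasDerivAt (fun s : ℝ => -(9 / 10 * s)) (-(9 / 10 * 1)) t := ((hasDerivAt_id t).const_mul (9 / 10)).neg
      exact h0.congr_deriv (by norm_num)
    refine ((h1.exp.const_mul (500 / 99 * d * Λ)).sub (h2.exp.const_mul (20 / 9 * d * X0))).congr_deriv ?_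
    ring
  have h1 := RTW_mv f _ f' _ 0 T hT hf hg (fun t ht => by
    refine (h t ht).trans ?_
    have hS' : S t ≤ Real.exp (-(9 / 10 * t)) * X0 + 40 * (d * Λ * Real.exp (-(99 / 100 * (T - t)))) := by
      have hnn : 0 ≤ d * Λ * Real.exp (-(99 / 100 * (T - t))) := by positivity
      have hnn2 : 0 ≤ Real.exp (-(9 / 10 * t)) * X0 := by positivity
      refine le_of_sq_le_sq ?_ (by positivity)
      refine (hS t ht).trans ?_
      have h3 : Real.exp (-(9 / 5 * t)) = Real.exp (-(9 / 10 * t)) ^ 2 := by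
        rw [← Real.exp_nat_mul]
        congr 1
        push_cast
        ring
      rw [h3]
      nlinarith [mul_nonneg hnn hnn2]
    have h4 : d * (d * Λ * Real.exp (-(99 / 100 * (T - t)))) ≤ 1 / 10000 * (d * Λ * Real.exp (-(99 / 100 * (T - t)))) :=
      mul_le_mul_of_nonneg_right hd1 (by positivity)
    have h5 := mul_le_mul_of_nonneg_left hS' hd0.le
    have h6 : 0 ≤ d * Λ * Real.exp (-(99 / 100 * (T - t))) := by positivity
    nlinarith)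
  refine h1.trans ?_
  simp only [sub_self, mul_zero, neg_zero, Real.exp_zero, sub_zero]
  have h7 : 0 < Real.exp (-(99 / 100 * T)) := Real.exp_pos _
  have h8 : 0 < Real.exp (-(9 / 10 * T)) := Real.exp_pos _
  have h9 : 0 ≤ d * Λ * Real.exp (-(99 / 100 * T)) := by positivity
  have h10 : 0 ≤ d * X0 * Real.exp (-(9 / 10 * T)) := by positivity
  have h11 : 0 ≤ d * Λ := by positivity
  have h12 : 0 ≤ d * X0 := by positivity
  nlinarith

theorem RTW_dr_lin (U : ℍ → ℝ) (E : ℝ) (g : SL(2, ℝ)) (s x b c : ℝ) : dr U E g (s * x) (s * b) (s * c) = s * dr U E g x b c := by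
  unfold dr
  ring

theorem RTW_dk_lin (U : ℍ → ℝ) (E : ℝ) (g : SL(2, ℝ)) (s x b c : ℝ) : dk U E g (s * x) (s * b) (s * c) = s * dk U E g x b c := by
  unfold dk
  rw [RTW_dr_lin]
  ring

theorem RTW_dr_sub (U : ℍ → ℝ) (E : ℝ) (g : SL(2, ℝ)) (x b c x' b' c' : ℝ) :
    dr U E g (x - x') (b - b') (c - c') = dr U E g x b c - dr U E g x' b' c' := by
  unfold dr
  ring

theorem RTW_dk_sub (U : ℍ → ℝ) (E : ℝ) (g : SL(2, ℝ)) (x b c x' b' c' : ℝ) :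
    dk U E g (x - x') (b - b') (c - c') = dk U E g x b c - dk U E g x' b' c' := by
  unfold dk
  rw [RTW_dr_sub]
  ring

/-- the equations for the slopes -/
theorem RTW_dq (D : Dyn) (E : ℝ) (g : SL(2, ℝ)) (x b c : ℝ → ℝ) (h : VSol D E g x b c) (t : ℝ) (hc : 0 < c t) (r k R K : ℝ)
    (hr : r = rho D.U E (D.fl E t g)) (hk : k = kap D.U E (D.fl E t g)) (hR : R = dr D.U E (D.fl E t g) (x t / c t) (b t / c t) 1)
    (hK : K = dk D.U E (D.fl E t g) (x t / c t) (b t / c t) 1) :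
    HasDerivAt (fun s => x s / c s) (-(k * (b t / c t + 1)) + R - (r + k * (x t / c t) / 2 - K / 2) * (x t / c t)) t ∧
    HasDerivAt (fun s => b s / c s) (-(r * (b t / c t)) + k * (x t / c t) / 2 + K / 2 - (r + k * (x t / c t) / 2 - K / 2) * (b t / c t)) t ∧
    HasDerivAt (fun s => Real.log (c s)) (r + k * (x t / c t) / 2 - K / 2) t := by
  have hx : x t = c t * (x t / c t) := by field_simp
  have hb : b t = c t * (b t / c t) := by field_simp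
  have h1 : dr D.U E (D.fl E t g) (x t) (b t) (c t) = c t * R := by
    rw [hR, ← RTW_dr_lin, mul_one, ← hx, ← hb]
  have h2 : dk D.U E (D.fl E t g) (x t) (b t) (c t) = c t * K := by
    rw [hK, ← RTW_dk_lin, mul_one, ← hx, ← hb]
  obtain ⟨d1, d2, d3⟩ := h t r k (dr D.U E (D.fl E t g) (x t) (b t) (c t)) (dk D.U E (D.fl E t g) (x t) (b t) (c t)) hr hk
    (by rw [hr]; rfl) (by rw [hr, hk]; rfl)
  rw [h1] at d1
  rw [h2] at d2 d3
  have hc' : c t ≠ 0 := hc.ne'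
  refine ⟨(d1.div d3 hc').congr_deriv ?_, (d2.div d3 hc').congr_deriv ?_, (d3.log hc').congr_deriv ?_⟩
  · field_simp
  · field_simp
  · field_simp

theorem RTW_sq (f : ℝ → ℝ) (f' t : ℝ) (h : HasDerivAt f f' t) : HasDerivAt (fun s => f s ^ 2) (2 * f t * f') t := by
  have h0 : HasDerivAt (fun s => f s ^ 2) (((2 : ℕ) : ℝ) * f t ^ (2 - 1) * f') t := h.pow 2
  exact h0.congr_deriv (by norm_num)

theorem RTW_slope (x b c : ℝ) (hc : 0 < c) (h : x ^ 2 + b ^ 2 ≤ (1 / 25) ^ 2 * c ^ 2) : |x / c| ≤ 1 / 25 ∧ |b / c| ≤ 1 / 25 := by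
  constructor
  · rw [abs_div, abs_of_pos hc, div_le_iff₀ hc]
    refine abs_le_of_sq_le_sq ?_ (by positivity)
    nlinarith [sq_nonneg b]
  · rw [abs_div, abs_of_pos hc, div_le_iff₀ hc]
    refine abs_le_of_sq_le_sq ?_ (by positivity)
    nlinarith [sq_nonneg x]

theorem RTW_proof : RTW_stmt := by
  intro d D hFF hd0 hd1 E T Λ X0 g1 g2 x1 b1 c1 x2 b2 c2 hE hT hΛ0 hΛ1 hX0 hv1 hv2 hyp h0
  have hIcc : ∀ t ∈ Icc 0 T, 0 ≤ t ∧ t ≤ T := fun t ht => ht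
  -- the slopes
  have hsl1 : ∀ t ∈ Icc 0 T, |x1 t / c1 t| ≤ 1 / 25 ∧ |b1 t / c1 t| ≤ 1 / 25 := fun t ht =>
    RTW_slope _ _ _ (hyp t ht.1 ht.2).1 (hyp t ht.1 ht.2).2.2.1
  have hsl2 : ∀ t ∈ Icc 0 T, |x2 t / c2 t| ≤ 1 / 25 ∧ |b2 t / c2 t| ≤ 1 / 25 := fun t ht =>
    RTW_slope _ _ _ (hyp t ht.1 ht.2).2.1 (hyp t ht.1 ht.2).2.2.2.1
  have hexp : ∀ t ∈ Icc 0 T, Real.exp (-(99 / 100 * (T - t))) ≤ 1 := by
    intro t ht
    rw [Real.exp_le_one_iff]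
    have := ht.2
    linarith
  set r1 : ℝ → ℝ := fun t => rho D.U E (D.fl E t g1) with hr1
  set k1 : ℝ → ℝ := fun t => kap D.U E (D.fl E t g1) with hk1
  set R1 : ℝ → ℝ := fun t => dr D.U E (D.fl E t g1) (x1 t / c1 t) (b1 t / c1 t) 1 with hR1
  set K1 : ℝ → ℝ := fun t => dk D.U E (D.fl E t g1) (x1 t / c1 t) (b1 t / c1 t) 1 with hK1
  set r2 : ℝ → ℝ := fun t => rho D.U E (D.fl E t g2) with hr2
  set k2 : ℝ → ℝ := fun t => kap D.U E (D.fl E t g2) with hk2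
  set R2 : ℝ → ℝ := fun t => dr D.U E (D.fl E t g2) (x2 t / c2 t) (b2 t / c2 t) 1 with hR2
  set K2 : ℝ → ℝ := fun t => dk D.U E (D.fl E t g2) (x2 t / c2 t) (b2 t / c2 t) 1 with hK2
  have q1 : ∀ t ∈ Icc 0 T, _ := fun t ht =>
    RTW_dq D E g1 x1 b1 c1 hv1 t (hyp t ht.1 ht.2).1 (r1 t) (k1 t) (R1 t) (K1 t) rfl rfl rfl rfl
  have q2 : ∀ t ∈ Icc 0 T, _ := fun t ht =>
    RTW_dq D E g2 x2 b2 c2 hv2 t (hyp t ht.1 ht.2).2.1 (r2 t) (k2 t) (R2 t) (K2 t) rfl rfl rfl rfl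
  set X : ℝ → ℝ := fun t => (x1 t / c1 t - x2 t / c2 t) ^ 2 + (b1 t / c1 t - b2 t / c2 t) ^ 2 with hX
  have hX0' : ∀ t, 0 ≤ X t := fun t => by positivity
  have halg : ∀ t ∈ Icc 0 T, _ := fun t ht =>
    RTW_alg d (Λ * Real.exp (-(99 / 100 * (T - t)))) (r1 t) (k1 t) (R1 t) (K1 t) (r2 t) (k2 t) (R2 t) (K2 t) (x1 t / c1 t) (b1 t / c1 t)
      (x2 t / c2 t) (b2 t / c2 t) (Real.sqrt (X t)) hd0 hd1 (by positivity) (hFF.ro E _ hE) (hFF.ro E _ hE) (hFF.ka E _ hE) (hFF.ka E _ hE)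
      (by
        have h1 := hFF.k0 E (D.fl E t g1) (x1 t / c1 t) (b1 t / c1 t) 1 hE
        have h2 := hsl1 t ht
        rw [abs_one] at h1
        have h3 : d * (|x1 t / c1 t| + |b1 t / c1 t| + 1) ≤ d * (1 / 25 + 1 / 25 + 1) := mul_le_mul_of_nonneg_left (by linarith [h2.1, h2.2]) hd0.le
        exact h1.trans (by linarith))
      (by
        have h1 := hFF.k0 E (D.fl E t g2) (x2 t / c2 t) (b2 t / c2 t) 1 hE
        have h2 := hsl2 t ht
        rw [abs_one] at h1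
        have h3 : d * (|x2 t / c2 t| + |b2 t / c2 t| + 1) ≤ d * (1 / 25 + 1 / 25 + 1) := mul_le_mul_of_nonneg_left (by linarith [h2.1, h2.2]) hd0.le
        exact h1.trans (by linarith))
      (by
        have h1 := hFF.lr E E (D.fl E t g1) ((D.fl E t g1)⁻¹ * D.fl E t g2) hE hE
        rw [mul_inv_cancel_left, sub_self, abs_zero, mul_zero, add_zero, abs_sub_comm] at h1
        have h2 := mul_le_mul_of_nonneg_left (hyp t ht.1 ht.2).2.2.2.2 hd0.le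
        exact h1.trans (by linarith))
      (by
        have h1 := hFF.lk E E (D.fl E t g1) ((D.fl E t g1)⁻¹ * D.fl E t g2) hE hE
        rw [mul_inv_cancel_left, sub_self, abs_zero, mul_zero, add_zero, abs_sub_comm] at h1
        have h2 := mul_le_mul_of_nonneg_left (hyp t ht.1 ht.2).2.2.2.2 hd0.le
        exact h1.trans (by linarith))
      (by
        have hn := (hyp t ht.1 ht.2).2.2.2.2
        have hn1 : Λ * Real.exp (-(99 / 100 * (T - t))) ≤ Λ * 1 := mul_le_mul_of_nonneg_left (hexp t ht) hΛ0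
        have h1 := hFF.r1 E (D.fl E t g1) ((D.fl E t g1)⁻¹ * D.fl E t g2) (x2 t / c2 t) (b2 t / c2 t) 1 hE (by linarith)
        rw [mul_inv_cancel_left, abs_one] at h1
        have h2 := hFF.r0 E (D.fl E t g1) (x1 t / c1 t - x2 t / c2 t) (b1 t / c1 t - b2 t / c2 t) (1 - 1) hE
        rw [RTW_dr_sub, sub_self, abs_zero, add_zero] at h2
        have h3 := hsl2 t ht
        have h4 : d * nm ((D.fl E t g1)⁻¹ * D.fl E t g2) * (|x2 t / c2 t| + |b2 t / c2 t| + 1) ≤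
            d * (2 * Λ * Real.exp (-(99 / 100 * (T - t)))) * (1 / 25 + 1 / 25 + 1) :=
          mul_le_mul (mul_le_mul_of_nonneg_left hn hd0.le) (by linarith [h3.1, h3.2]) (by positivity) (by positivity)
        obtain ⟨a1, a2⟩ := abs_le.1 h1
        obtain ⟨a3, a4⟩ := abs_le.1 h2
        have h5 : 0 ≤ d * (Λ * Real.exp (-(99 / 100 * (T - t)))) := by positivity
        rw [hR1, hR2, abs_le]
        constructor <;> linarith)
      (by
        have hn := (hyp t ht.1 ht.2).2.2.2.2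
        have hn1 : Λ * Real.exp (-(99 / 100 * (T - t))) ≤ Λ * 1 := mul_le_mul_of_nonneg_left (hexp t ht) hΛ0
        have h1 := hFF.k1 E (D.fl E t g1) ((D.fl E t g1)⁻¹ * D.fl E t g2) (x2 t / c2 t) (b2 t / c2 t) 1 hE (by linarith)
        rw [mul_inv_cancel_left, abs_one] at h1
        have h2 := hFF.k0 E (D.fl E t g1) (x1 t / c1 t - x2 t / c2 t) (b1 t / c1 t - b2 t / c2 t) (1 - 1) hE
        rw [RTW_dk_sub, sub_self, abs_zero, add_zero] at h2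
        have h3 := hsl2 t ht
        have h4 : d * nm ((D.fl E t g1)⁻¹ * D.fl E t g2) * (|x2 t / c2 t| + |b2 t / c2 t| + 1) ≤
            d * (2 * Λ * Real.exp (-(99 / 100 * (T - t)))) * (1 / 25 + 1 / 25 + 1) :=
          mul_le_mul (mul_le_mul_of_nonneg_left hn hd0.le) (by linarith [h3.1, h3.2]) (by positivity) (by positivity)
        obtain ⟨a1, a2⟩ := abs_le.1 h1
        obtain ⟨a3, a4⟩ := abs_le.1 h2
        have h5 : 0 ≤ d * (Λ * Real.exp (-(99 / 100 * (T - t)))) := by positivity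
        rw [hK1, hK2, abs_le]
        constructor <;> linarith)
      (hsl1 t ht).1 (hsl1 t ht).2 (hsl2 t ht).1 (hsl2 t ht).2 (Real.sqrt_nonneg _) (Real.sq_sqrt (hX0' t))
  have hode := RTW_ode X _ T (d * Λ) X0 (fun t ht => (RTW_sq (fun s => x1 s / c1 s - x2 s / c2 s) _ t ((q1 t ht).1.sub (q2 t ht).1)).add
      (RTW_sq (fun s => b1 s / c1 s - b2 s / c2 s) _ t ((q1 t ht).2.1.sub (q2 t ht).2.1)))
    (fun t ht => by
      have h1 := (halg t ht).2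
      rw [Real.sq_sqrt (hX0' t)] at h1
      refine h1.trans (le_of_eq ?_)
      ring) h0
  have hlog := RTW_log (fun t => Real.log (c2 t) - Real.log (c1 t)) (fun t => (r2 t + k2 t * (x2 t / c2 t) / 2 - K2 t / 2) - (r1 t + k1 t * (x1 t / c1 t) / 2 - K1 t / 2))
    (fun t => Real.sqrt (X t)) T d Λ X0 hT hd0 hd1 hΛ0 hX0 (fun t ht => (q2 t ht).2.2.sub (q1 t ht).2.2)
    (fun t ht => by
      rw [abs_sub_comm]
      exact (halg t ht).1)
    (fun t ht => by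
      rw [Real.sq_sqrt (hX0' t)]
      exact hode t ht)
  refine ⟨?_, ?_⟩
  · have h1 := hode T ⟨hT, le_rfl⟩
    rw [sub_self, mul_zero, neg_zero, Real.exp_zero, mul_one] at h1
    refine h1.trans ?_
    have := sq_nonneg (d * Λ)
    nlinarith
  · have h1 := hlog
    obtain ⟨a1, a2⟩ := abs_le.1 h1
    have h2 := neg_abs_le (Real.log (c2 0) - Real.log (c1 0))
    have h3 := le_abs_self (Real.log (c2 0) - Real.log (c1 0))
    rw [abs_le]
    constructor <;> linarith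

end Pool.Agent.VQ
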